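import Mathlib
import Pool.Agent.H84.MetAn

namespace Pool.Agent.Results.MP_d44cd8_gt.Both

open Pool.Agent.H84.MetAn

universe u v

theorem result :
    (∃ (X : Type) (_ : TopologicalSpace X) (x₀ : X), T1Space X ∧ HasAnalog.{0, v} x₀ ∧
      ¬ Quasimetrizable X) ∧
    ∀ (X : Type u) [TopologicalSpace X] [T0Space X], Quasimetrizable X →
      ∀ x₀ : X, HasAnalog.{u, v} x₀ :=
  ⟨⟨Y, inferInstance, Sum.inr 0, Y_t1, Y_analog _, Y_not⟩, fun _ _ _ => qm_analog⟩

end Pool.Agent.Results.MP_d44cd8_gt.Both
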